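import Pool.Agent.H832Z.PatMain

set_option autoImplicit false

namespace Pool.Agent.Results.MP_00321d_lc.AAlwaysAmbiguous

open Pool.Agent.H832Z.Pat

/-- Over every finite nonempty alphabet there is a morphically primitive pattern with respect to
which every substitution that erases no variable of the pattern (in particular every injective
substitution) is terminal-comprisingly ambiguous. -/
theorem result (A : Type) [Finite A] [Nonempty A] :
    ∃ α : List (ℕ ⊕ A), Primitive α ∧
      ∀ σ : ℕ → List A, (∀ v : ℕ, Sum.inl v ∈ α → σ v ≠ []) → Ambiguous α (subst σ α) :=
  main A

end Pool.Agent.Results.MP_00321d_lc.AAlwaysAmbiguous
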